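import Pool.Agent.Q38.OE.CR3a
import Pool.Agent.Q260.OE.Stm
import Pool.Agent.Q286.BD.Fin
import Pool.Agent.Y23.Zs

/-!
# Project OE of helper260, job CR3: the mean square of the transform away from finitely many zeros
-/

set_option autoImplicit false

namespace Pool.Agent.Q38.OE

open Complex MeasureTheory Filter Topology Set
open Pool.Agent.Q286.BD (cl mz cl_re cl_im norm_cl_sq eqv mz_pos)
open Pool.Agent.Q260.GM (ph L2psi)
open Pool.Agent.Q260.OE

/-- the multiplicity -/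
noncomputable def mm (g : Go) : ℝ := (mz (cl (g : ℝ)) : ℝ)

theorem mm_nonneg (g : Go) : 0 ≤ mm g := Nat.cast_nonneg _

theorem mm_ge (hRH : RiemannHypothesis) (g : Go) : 1 ≤ mm g := by
  have h := mz_pos (eqv hRH g)
  unfold mm
  exact_mod_cast h

/-- the zeros in unit intervals -/
theorem near_sum (hRH : RiemannHypothesis) : ∃ K : ℝ, 0 < K ∧ ∀ t : ℝ,
    Summable (fun g : Go => mm g * (1 / (1 + ((g : ℝ) - t) ^ 2))) ∧
    ∑' g : Go, mm g * (1 / (1 + ((g : ℝ) - t) ^ 2)) ≤ K * Lo t := by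
  obtain ⟨K, hK, h⟩ := Pool.Agent.Y23.zsum_le
  refine ⟨K, hK, fun t => ?_⟩
  have e : (fun g : Go => mm g * (1 / (1 + ((g : ℝ) - t) ^ 2))) =
      (fun ρ : Pool.Agent.Y23.Zt => (Pool.Agent.Y23.mu ρ : ℝ) * (1 / (1 + ((ρ : ℂ).im - t) ^ 2))) ∘ (eqv hRH) := by
    funext g
    simp only [Function.comp_apply]
    have h1 : ((eqv hRH g : Pool.Agent.Y23.Zt) : ℂ) = cl g := rfl
    rw [h1, cl_im]
    rfl
  constructor
  · rw [e]
    exact (eqv hRH).summable_iff.2 (Pool.Agent.Y23.zsummable t)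
  · have h2 : ∑' g : Go, mm g * (1 / (1 + ((g : ℝ) - t) ^ 2)) =
        ∑' ρ : Pool.Agent.Y23.Zt, (Pool.Agent.Y23.mu ρ : ℝ) * (1 / (1 + ((ρ : ℂ).im - t) ^ 2)) := by
      rw [e]
      exact (eqv hRH).tsum_eq
        (fun ρ : Pool.Agent.Y23.Zt => (Pool.Agent.Y23.mu ρ : ℝ) * (1 / (1 + ((ρ : ℂ).im - t) ^ 2)))
    rw [h2]
    refine (h t).trans (mul_le_mul_of_nonneg_left ?_ hK.le)
    unfold Pool.Agent.Y23.Lg Lo
    have := abs_nonneg t
    exact Real.log_le_log (by linarith) (by linarith)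

theorem near_fin (hRH : RiemannHypothesis) (t : ℝ) : {g : Go | |(g : ℝ) - t| ≤ 1}.Finite := by
  obtain ⟨K, hK, h⟩ := near_sum hRH
  have h1 := (h t).1.tendsto_cofinite_zero
  have h2 : ∀ᶠ g : Go in cofinite, mm g * (1 / (1 + ((g : ℝ) - t) ^ 2)) < 1 / 2 :=
    h1.eventually (gt_mem_nhds (by norm_num))
  rw [Filter.eventually_cofinite] at h2
  refine h2.subset fun g hg => ?_
  have hg' : |(g : ℝ) - t| ≤ 1 := hg
  simp only [mem_setOf_eq, not_lt]
  have h3 := mm_ge hRH g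
  have h4 : ((g : ℝ) - t) ^ 2 ≤ 1 := by
    rw [← sq_abs]
    exact pow_le_one₀ (abs_nonneg _) hg'
  have h5 : 1 / 2 ≤ 1 / (1 + ((g : ℝ) - t) ^ 2) := one_div_le_one_div_of_le (by positivity) (by linarith)
  calc (1 : ℝ) / 2 = 1 * (1 / 2) := (one_mul _).symm
    _ ≤ _ := mul_le_mul h3 h5 (by norm_num) (by linarith)

/-- the series converges -/
theorem sum_W1 (hRH : RiemannHypothesis) : Summable fun g : Go => mm g * W1 g := by
  obtain ⟨K, hK, h⟩ := near_sum hRH
  have hint : ∀ g : ℝ, Integrable fun t : ℝ => W1 t * (1 / (1 + (g - t) ^ 2)) := by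
    intro g
    refine int_W2.mono' ?_ (Eventually.of_forall fun t => ?_)
    · refine Continuous.aestronglyMeasurable ?_
      have h1 : Continuous W1 := by
        unfold W1
        exact Lo_cont.div (by fun_prop) fun t => by positivity
      refine h1.mul (Continuous.div continuous_const (by fun_prop) fun t => by positivity)
    · have h1 := Lo_ge t
      have h2 := W1_pos t
      rw [Real.norm_of_nonneg (by positivity)]
      have h3 : 1 / (1 + (g - t) ^ 2) ≤ 1 := by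
        rw [div_le_one (by positivity)]
        have := sq_nonneg (g - t)
        linarith
      calc W1 t * (1 / (1 + (g - t) ^ 2)) ≤ W1 t * 1 := mul_le_mul_of_nonneg_left h3 h2.le
        _ ≤ W2 t := by
            rw [mul_one]
            unfold W1 W2
            apply div_le_div_of_nonneg_right _ (by positivity)
            nlinarith
  have hW : ∀ g : ℝ, W1 g ≤ 36 * ∫ t : ℝ, W1 t * (1 / (1 + (g - t) ^ 2)) := by
    intro g
    have h1 : volume.real (Icc g (g + 1)) • (W1 g / 36) ≤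
        ∫ t in Icc g (g + 1), W1 t * (1 / (1 + (g - t) ^ 2)) := by
      refine setIntegral_ge_of_const_le measurableSet_Icc (by simp) (fun t ht => ?_) (hint g).integrableOn
      have h2 : |g - t| ≤ 1 := by
        rw [abs_le]
        constructor <;> linarith [ht.1, ht.2]
      have h3 := W1_comp h2
      have h4 : (g - t) ^ 2 ≤ 1 := by
        rw [← sq_abs]
        exact pow_le_one₀ (abs_nonneg _) h2
      have h5 : 1 / 2 ≤ 1 / (1 + (g - t) ^ 2) := one_div_le_one_div_of_le (by positivity) (by linarith)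
      have h6 := W1_pos t
      nlinarith
    have h2 : volume.real (Icc g (g + 1)) = 1 := by
      rw [measureReal_def, Real.volume_Icc]
      simp
    rw [h2, one_smul] at h1
    have h3 : ∫ t in Icc g (g + 1), W1 t * (1 / (1 + (g - t) ^ 2)) ≤ ∫ t : ℝ, W1 t * (1 / (1 + (g - t) ^ 2)) :=
      setIntegral_le_integral (hint g) (Eventually.of_forall fun t => by
        have := W1_pos t
        change 0 ≤ W1 t * (1 / (1 + (g - t) ^ 2))
        positivity)
    linarith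
  refine summable_of_sum_le (c := 36 * (K * ∫ t, W2 t)) (fun g => mul_nonneg (mm_nonneg g) (W1_pos _).le) fun S => ?_
  calc ∑ g ∈ S, mm g * W1 g ≤ ∑ g ∈ S, mm g * (36 * ∫ t : ℝ, W1 t * (1 / (1 + ((g : ℝ) - t) ^ 2))) :=
        Finset.sum_le_sum fun g _ => mul_le_mul_of_nonneg_left (hW g) (mm_nonneg g)
    _ = 36 * ∫ t : ℝ, W1 t * ∑ g ∈ S, mm g * (1 / (1 + ((g : ℝ) - t) ^ 2)) := by
        have e1 : (fun t : ℝ => W1 t * ∑ g ∈ S, mm g * (1 / (1 + ((g : ℝ) - t) ^ 2))) = fun t : ℝ =>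
            ∑ g ∈ S, mm g * (W1 t * (1 / (1 + ((g : ℝ) - t) ^ 2))) := by
          funext t
          rw [Finset.mul_sum]
          exact Finset.sum_congr rfl fun g _ => by ring
        rw [e1, integral_finset_sum S fun g _ => (hint g).const_mul _, Finset.mul_sum]
        refine Finset.sum_congr rfl fun g _ => ?_
        rw [integral_const_mul]
        ring
    _ ≤ 36 * ∫ t : ℝ, K * W2 t := by
        refine mul_le_mul_of_nonneg_left ?_ (by norm_num)
        refine integral_mono ?_ (int_W2.const_mul K) fun t => ?_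
        · have e1 : (fun t : ℝ => W1 t * ∑ g ∈ S, mm g * (1 / (1 + ((g : ℝ) - t) ^ 2))) = fun t : ℝ =>
            ∑ g ∈ S, mm g * (W1 t * (1 / (1 + ((g : ℝ) - t) ^ 2))) := by
            funext t
            rw [Finset.mul_sum]
            exact Finset.sum_congr rfl fun g _ => by ring
          rw [e1]
          exact integrable_finset_sum S fun g _ => (hint g).const_mul _
        · have h1 : ∑ g ∈ S, mm g * (1 / (1 + ((g : ℝ) - t) ^ 2)) ≤ K * Lo t :=
            ((h t).1.sum_le_tsum S fun g _ => by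
              have := mm_nonneg g
              positivity).trans (h t).2
          have h2 := W1_pos t
          calc W1 t * ∑ g ∈ S, mm g * (1 / (1 + ((g : ℝ) - t) ^ 2)) ≤ W1 t * (K * Lo t) :=
                mul_le_mul_of_nonneg_left h1 h2.le
            _ = K * W2 t := by
                unfold W1 W2
                ring
    _ = _ := by rw [integral_const_mul]

/-- the near zeros -/
theorem Nz_sq (hRH : RiemannHypothesis) {K : ℝ}
    (hK : ∀ t : ℝ, Summable (fun g : Go => mm g * (1 / (1 + ((g : ℝ) - t) ^ 2))) ∧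
      ∑' g : Go, mm g * (1 / (1 + ((g : ℝ) - t) ^ 2)) ≤ K * Lo t) (S : Finset ℝ) {δ : ℝ} (hδ : 0 < δ) (t : ℝ) :
    ∃ T : Finset Go, (∀ g ∈ T, |t - (g : ℝ)| ≤ 1) ∧ Nz S δ t ^ 2 ≤
      2 * (K * Lo t) * ∑ g ∈ T, (if (g : ℝ) ∈ S then 0 else mm g) * (1 / (δ ^ 2 + (t - (g : ℝ)) ^ 2)) := by
  classical
  have hfin := near_fin hRH t
  have hTm : ∀ g : Go, g ∈ hfin.toFinset ↔ |(g : ℝ) - t| ≤ 1 := fun g => by
    rw [hfin.mem_toFinset]
    rfl
  obtain ⟨T, hT⟩ : ∃ T : Finset Go, ∀ g, g ∈ T ↔ |(g : ℝ) - t| ≤ 1 := ⟨hfin.toFinset, hTm⟩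
  refine ⟨T, fun g hg => by rw [abs_sub_comm]; exact (hT g).1 hg, ?_⟩
  have hnorm : ∀ g : ℝ, ‖(δ : ℂ) + (t - g) * I‖ ^ 2 = δ ^ 2 + (t - g) ^ 2 := by
    intro g
    rw [← Complex.normSq_eq_norm_sq]
    have : (δ : ℂ) + (t - g) * I = ⟨δ, t - g⟩ := by
      apply Complex.ext <;> simp
    rw [this, Complex.normSq_mk]
    ring
  have h1 : Nz S δ t = ∑ g ∈ T, √(mm g) * (if (g : ℝ) ∈ S then 0 else √(mm g) / ‖(δ : ℂ) + (t - (g : ℝ)) * I‖) := by
    unfold Nz
    rw [tsum_eq_sum (s := T)]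
    · refine Finset.sum_congr rfl fun g hg => ?_
      have hg' := (hT g).1 hg
      by_cases hS : (g : ℝ) ∈ S
      · rw [if_pos (Or.inl hS), if_pos hS, mul_zero]
      · rw [if_neg (by
          rintro (h | h)
          · exact hS h
          · linarith), if_neg hS]
        rw [mul_div_assoc', Real.mul_self_sqrt (mm_nonneg g)]
        rfl
    · intro g hg
      rw [if_pos]
      right
      by_contra hcon
      exact hg ((hT g).2 (not_lt.1 hcon))
  rw [h1]
  refine (Finset.sum_mul_sq_le_sq_mul_sq T _ _).trans ?_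
  have h2 : ∑ g ∈ T, √(mm g) ^ 2 ≤ 2 * (K * Lo t) := by
    calc ∑ g ∈ T, √(mm g) ^ 2 ≤ ∑ g ∈ T, 2 * (mm g * (1 / (1 + ((g : ℝ) - t) ^ 2))) := by
          refine Finset.sum_le_sum fun g hg => ?_
          rw [Real.sq_sqrt (mm_nonneg g)]
          have h3 : ((g : ℝ) - t) ^ 2 ≤ 1 := by
            rw [← sq_abs]
            exact pow_le_one₀ (abs_nonneg _) ((hT g).1 hg)
          have h5 : 1 / 2 ≤ 1 / (1 + ((g : ℝ) - t) ^ 2) := one_div_le_one_div_of_le (by positivity) (by linarith)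
          have h6 := mul_le_mul_of_nonneg_left h5 (mm_nonneg g)
          linarith
      _ = 2 * ∑ g ∈ T, mm g * (1 / (1 + ((g : ℝ) - t) ^ 2)) := by rw [Finset.mul_sum]
      _ ≤ 2 * (K * Lo t) := by
          refine mul_le_mul_of_nonneg_left ?_ (by norm_num)
          exact ((hK t).1.sum_le_tsum T fun g _ => by
              have := mm_nonneg g
              positivity).trans (hK t).2
  have h3 : ∑ g ∈ T, (if (g : ℝ) ∈ S then 0 else √(mm g) / ‖(δ : ℂ) + (t - (g : ℝ)) * I‖) ^ 2 =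
      ∑ g ∈ T, (if (g : ℝ) ∈ S then 0 else mm g) * (1 / (δ ^ 2 + (t - (g : ℝ)) ^ 2)) := by
    refine Finset.sum_congr rfl fun g _ => ?_
    split_ifs with hS
    · ring
    · rw [div_pow, Real.sq_sqrt (mm_nonneg g), hnorm, mul_one_div]
  rw [h3]
  refine mul_le_mul_of_nonneg_right h2 (Finset.sum_nonneg fun g _ => ?_)
  have := mm_nonneg g
  split_ifs
  · rw [zero_mul]
  · positivity

/-- the pointwise bound -/
theorem point (hRH : RiemannHypothesis) (hL : L2psi) (h1 : S_CR1) (h2 : S_CR2) {K : ℝ} (hK0 : 0 < K)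
    (hK : ∀ t : ℝ, Summable (fun g : Go => mm g * (1 / (1 + ((g : ℝ) - t) ^ 2))) ∧
      ∑' g : Go, mm g * (1 / (1 + ((g : ℝ) - t) ^ 2)) ≤ K * Lo t) (S : Finset ℝ)
    (hS : ∀ g ∈ S, riemannZeta (cl g) = 0) :
    ∃ A : ℝ, 0 ≤ A ∧ ∀ δ : ℝ, 0 < δ → δ ≤ 1 / 4 → ∀ t : ℝ, ∃ T : Finset Go,
      ‖GS S δ t‖ ^ 2 ≤ A * W2 t + ∑ g ∈ T, (72 * K * (if (g : ℝ) ∈ S then 0 else mm g * W1 g)) *
        (1 / (δ ^ 2 + (t - (g : ℝ)) ^ 2)) := by
  classical
  obtain ⟨C, hC, hcr2⟩ := h2 hRH S hS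
  obtain ⟨B, hB⟩ : ∃ B : ℝ, B = ‖∑ g ∈ S, (mz (cl g) : ℂ) / cl g‖ := ⟨_, rfl⟩
  have hB0 : 0 ≤ B := by
    rw [hB]
    exact norm_nonneg _
  refine ⟨2 * (C + 5 + B) ^ 2, by positivity, ?_⟩
  intro δ hδ hδ1 t
  obtain ⟨T, hT, hNz⟩ := Nz_sq hRH hK S hδ t
  refine ⟨T, ?_⟩
  have hcr1 := (h1 hL S δ hδ hδ1).2.2 t
  have hc2 := hcr2 δ t hδ hδ1
  obtain ⟨s, hs⟩ : ∃ s : ℂ, s = ((1 / 2 + δ : ℝ) : ℂ) + t * I := ⟨_, rfl⟩
  rw [← hs] at hcr1 hc2
  have hsre : s.re = 1 / 2 + δ := by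
    rw [hs]
    simp
  have hsim : s.im = t := by
    rw [hs]
    simp
  have hLo := Lo_ge t
  have hs1 : 1 / 4 ≤ ‖s - 1‖ := by
    have h3 := Complex.abs_re_le_norm (s - 1)
    rw [Complex.sub_re, hsre, Complex.one_re] at h3
    have h4 : 1 / 4 ≤ |1 / 2 + δ - 1| := by
      rw [abs_of_nonpos (by linarith)]
      linarith
    linarith
  have hs10 : s - 1 ≠ 0 := by
    intro h
    rw [h, norm_zero] at hs1
    linarith
  have hq : ‖s / (s - 1)‖ ≤ 5 := by
    have h3 : s / (s - 1) = 1 + 1 / (s - 1) := by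
      field_simp
      ring
    rw [h3]
    refine (norm_add_le _ _).trans ?_
    rw [norm_one, norm_div, norm_one]
    have h4 : 1 / ‖s - 1‖ ≤ 1 / (1 / 4) := one_div_le_one_div_of_le (by norm_num) hs1
    linarith [h4, (by norm_num : (1 : ℝ) / (1 / 4) = 4)]
  have hlog : Real.log (|t| + 3) ≤ Lo t := by
    unfold Lo
    have := abs_nonneg t
    exact Real.log_le_log (by linarith) (by linarith)
  have hmain : ‖s‖ * ‖GS S δ t‖ ≤ (C + 5 + B) * Lo t + Nz S δ t := by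
    rw [← norm_mul, hcr1]
    have e1 : -(deriv riemannZeta s / riemannZeta s) - s / (s - 1) + ∑ g ∈ S, (mz (cl g) : ℂ) / (s - cl g) +
        ∑ g ∈ S, (mz (cl g) : ℂ) / cl g =
        (-(deriv riemannZeta s / riemannZeta s) + ∑ g ∈ S, (mz (cl g) : ℂ) / (s - cl g)) - s / (s - 1) +
          ∑ g ∈ S, (mz (cl g) : ℂ) / cl g := by ring
    rw [e1]
    refine (norm_add_le _ _).trans ?_
    rw [← hB]
    have e2 := norm_sub_le (-(deriv riemannZeta s / riemannZeta s) + ∑ g ∈ S, (mz (cl g) : ℂ) / (s - cl g))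
      (s / (s - 1))
    have e3 : C * Real.log (|t| + 3) ≤ C * Lo t := mul_le_mul_of_nonneg_left hlog hC.le
    nlinarith
  have hssq : 1 / 4 + t ^ 2 ≤ ‖s‖ ^ 2 := by
    rw [← Complex.normSq_eq_norm_sq, Complex.normSq_apply, hsre, hsim]
    nlinarith
  have hsq : (1 / 4 + t ^ 2) * ‖GS S δ t‖ ^ 2 ≤ 2 * (C + 5 + B) ^ 2 * Lo t ^ 2 + 2 * Nz S δ t ^ 2 := by
    calc (1 / 4 + t ^ 2) * ‖GS S δ t‖ ^ 2 ≤ ‖s‖ ^ 2 * ‖GS S δ t‖ ^ 2 :=
          mul_le_mul_of_nonneg_right hssq (by positivity)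
      _ = (‖s‖ * ‖GS S δ t‖) ^ 2 := by ring
      _ ≤ ((C + 5 + B) * Lo t + Nz S δ t) ^ 2 := pow_le_pow_left₀ (by positivity) hmain 2
      _ ≤ _ := by nlinarith [sq_nonneg ((C + 5 + B) * Lo t - Nz S δ t)]
  have hp : 0 < 1 / 4 + t ^ 2 := by positivity
  have h5 : ‖GS S δ t‖ ^ 2 ≤ (2 * (C + 5 + B) ^ 2 * Lo t ^ 2 + 2 * Nz S δ t ^ 2) / (1 / 4 + t ^ 2) := by
    rw [le_div_iff₀ hp, mul_comm]
    exact hsq
  refine h5.trans ?_
  rw [add_div]
  refine add_le_add (le_of_eq (by unfold W2; ring)) ?_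
  calc 2 * Nz S δ t ^ 2 / (1 / 4 + t ^ 2)
      ≤ 2 * (2 * (K * Lo t) * ∑ g ∈ T, (if (g : ℝ) ∈ S then 0 else mm g) * (1 / (δ ^ 2 + (t - (g : ℝ)) ^ 2))) /
        (1 / 4 + t ^ 2) := by
        apply div_le_div_of_nonneg_right _ hp.le
        linarith
    _ = ∑ g ∈ T, 4 * K * W1 t * ((if (g : ℝ) ∈ S then 0 else mm g) * (1 / (δ ^ 2 + (t - (g : ℝ)) ^ 2))) := by
        rw [← Finset.mul_sum]
        unfold W1
        ring
    _ ≤ _ := by
        refine Finset.sum_le_sum fun g hg => ?_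
        have h6 := W1_comp (hT g hg)
        have h7 : 0 ≤ 1 / (δ ^ 2 + (t - (g : ℝ)) ^ 2) := by positivity
        have h8 := mm_nonneg g
        split_ifs with hgS
        · rw [zero_mul, mul_zero, mul_zero, zero_mul]
        · calc 4 * K * W1 t * (mm g * (1 / (δ ^ 2 + (t - (g : ℝ)) ^ 2)))
              ≤ 4 * K * (18 * W1 g) * (mm g * (1 / (δ ^ 2 + (t - (g : ℝ)) ^ 2))) := by
                apply mul_le_mul_of_nonneg_right _ (by positivity)
                exact mul_le_mul_of_nonneg_left h6 (by positivity)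
            _ = _ := by ring

/-- **JOB CR3.** -/
theorem t_CR3 (hL : RiemannHypothesis → L2psi) (h1 : S_CR1) (h2 : S_CR2) : S_CR3 := by
  classical
  intro hRH ε hε
  obtain ⟨K, hK0, hK⟩ := near_sum hRH
  have hsW := sum_W1 hRH
  have hpi := Real.pi_pos
  have hcount : Countable Go := by
    have h3 := hsW.countable_support
    have h4 : Function.support (fun g : Go => mm g * W1 g) = univ := by
      rw [Set.eq_univ_iff_forall]
      intro g
      rw [Function.mem_support]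
      have h5 := mm_ge hRH g
      have h6 := W1_pos g
      positivity
    rw [h4] at h3
    exact Set.countable_univ_iff.1 h3
  obtain ⟨η, hη⟩ : ∃ η : ℝ, η = ε / (144 * Real.pi * K) := ⟨_, rfl⟩
  have hη0 : 0 < η := by
    rw [hη]
    positivity
  obtain ⟨a, ha⟩ : ∃ a : ℝ, a = ∑' g : Go, mm g * W1 g := ⟨_, rfl⟩
  have hev : ∀ᶠ s : Finset Go in atTop, a - η < ∑ g ∈ s, mm g * W1 g := by
    have h3 : Tendsto (fun s : Finset Go => ∑ g ∈ s, mm g * W1 g) atTop (𝓝 a) := by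
      rw [ha]
      exact hsW.hasSum
    exact h3.eventually (lt_mem_nhds (by linarith))
  obtain ⟨s0, hs0⟩ := Filter.eventually_atTop.1 hev
  refine ⟨s0.image Subtype.val, fun g hg => ?_, ?_⟩
  · obtain ⟨g', -, rfl⟩ := Finset.mem_image.1 hg
    exact g'.2
  intro S hSS hS
  have htail : ∑' g : Go, (if (g : ℝ) ∈ S then 0 else mm g * W1 g) ≤ η := by
    obtain ⟨s, hs⟩ : ∃ s : Finset Go, ∀ g : Go, g ∈ s ↔ (g : ℝ) ∈ S :=
      ⟨Finset.subtype (fun x => x ∈ Go) S, fun g => Finset.mem_subtype⟩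
    have h3 := hs0 s (fun g hg => (hs g).2 (hSS (Finset.mem_image_of_mem _ hg)))
    have h4 : ∀ g : Go, (if (g : ℝ) ∈ S then 0 else mm g * W1 g) =
        mm g * W1 g - (if (g : ℝ) ∈ S then mm g * W1 g else 0) := by
      intro g
      split_ifs
      · rw [sub_self]
      · rw [sub_zero]
    have h5 : ∀ g ∉ s, (if (g : ℝ) ∈ S then mm g * W1 g else 0) = 0 := fun g hg =>
      if_neg fun h => hg ((hs g).2 h)
    have h6 : Summable fun g : Go => (if (g : ℝ) ∈ S then mm g * W1 g else 0) := summable_of_ne_finset_zero h5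
    have h7 : ∑' g : Go, (if (g : ℝ) ∈ S then mm g * W1 g else 0) = ∑ g ∈ s, mm g * W1 g := by
      rw [tsum_eq_sum h5]
      exact Finset.sum_congr rfl fun g hg => if_pos ((hs g).1 hg)
    simp only [h4]
    rw [hsW.tsum_sub h6, h7, ← ha]
    linarith
  obtain ⟨A, hA0, hA⟩ := point hRH (hL hRH) h1 h2 hK0 hK S hS
  have hD0 : ∀ g : Go, 0 ≤ 72 * K * (if (g : ℝ) ∈ S then 0 else mm g * W1 g) := fun g => by
    have h3 := mm_nonneg g
    have h4 := W1_pos g
    split_ifs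
    · rw [mul_zero]
    · positivity
  have hDs : Summable fun g : Go => 72 * K * (if (g : ℝ) ∈ S then 0 else mm g * W1 g) := by
    refine Summable.mul_left _ (Summable.of_nonneg_of_le (fun g => ?_) (fun g => ?_) hsW)
    · have h3 := mm_nonneg g
      have h4 := W1_pos g
      split_ifs
      · exact le_rfl
      · positivity
    · have h3 := mm_nonneg g
      have h4 := W1_pos g
      split_ifs
      · positivity
      · exact le_rfl
  have hI0 : 0 ≤ ∫ t, W2 t := integral_nonneg fun t => (W2_pos t).le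
  obtain ⟨Q, hQ⟩ : ∃ Q : ℝ, Q = A * ∫ t, W2 t := ⟨_, rfl⟩
  have hQ0 : 0 ≤ Q := by
    rw [hQ]
    positivity
  have hb : 0 < min (1 / 4) (ε / (2 * (Q + 1))) := lt_min (by norm_num) (by positivity)
  filter_upwards [Ioo_mem_nhdsGT hb] with δ hδ
  have hδ0 : 0 < δ := hδ.1
  have hδ1 : δ ≤ 1 / 4 := (hδ.2.trans_le (min_le_left _ _)).le
  have hδ2 : δ ≤ ε / (2 * (Q + 1)) := (hδ.2.trans_le (min_le_right _ _)).le
  have h3 := int_bound (fun t => ‖GS S δ t‖ ^ 2) (fun t => by positivity) A hA0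
    (fun g : Go => 72 * K * (if (g : ℝ) ∈ S then 0 else mm g * W1 g)) hD0 hDs (fun g : Go => (g : ℝ)) hδ0
    (hA δ hδ0 hδ1)
  rw [← hQ, tsum_mul_left] at h3
  have h4 : δ * ∫ t, ‖GS S δ t‖ ^ 2 ≤
      δ * (Q + Real.pi / δ * (72 * K * ∑' g : Go, (if (g : ℝ) ∈ S then 0 else mm g * W1 g))) :=
    mul_le_mul_of_nonneg_left h3 hδ0.le
  refine h4.trans ?_
  have h5 : δ * (Q + Real.pi / δ * (72 * K * ∑' g : Go, (if (g : ℝ) ∈ S then 0 else mm g * W1 g))) =
      δ * Q + Real.pi * (72 * K) * ∑' g : Go, (if (g : ℝ) ∈ S then 0 else mm g * W1 g) := by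
    field_simp
  rw [h5]
  have h6 : Real.pi * (72 * K) * ∑' g : Go, (if (g : ℝ) ∈ S then 0 else mm g * W1 g) ≤ Real.pi * (72 * K) * η :=
    mul_le_mul_of_nonneg_left htail (by positivity)
  have h7 : Real.pi * (72 * K) * η = ε / 2 := by
    rw [hη]
    field_simp
    ring
  have h8 : δ * Q ≤ ε / 2 := by
    calc δ * Q ≤ δ * (Q + 1) := mul_le_mul_of_nonneg_left (by linarith) hδ0.le
      _ ≤ ε / (2 * (Q + 1)) * (Q + 1) := mul_le_mul_of_nonneg_right hδ2 (by linarith)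
      _ = ε / 2 := by field_simp
  linarith

end Pool.Agent.Q38.OE
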