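import Mathlib

/-!
# Project OE of helper260, job CR3: analysis
-/

set_option autoImplicit false

namespace Pool.Agent.Q38.OE

open MeasureTheory Filter Topology Set

/-- `log (4 + |t|)` -/
noncomputable def Lo (t : ℝ) : ℝ := Real.log (4 + |t|)

theorem Lo_ge (t : ℝ) : 1 ≤ Lo t := by
  unfold Lo
  have h := abs_nonneg t
  rw [Real.le_log_iff_exp_le (by linarith)]
  have := Real.exp_one_lt_d9
  linarith

noncomputable def W1 (t : ℝ) : ℝ := Lo t / (1 / 4 + t ^ 2)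

noncomputable def W2 (t : ℝ) : ℝ := Lo t ^ 2 / (1 / 4 + t ^ 2)

theorem W1_pos (t : ℝ) : 0 < W1 t := by
  unfold W1
  have := Lo_ge t
  positivity

theorem W2_pos (t : ℝ) : 0 < W2 t := by
  unfold W2
  have := Lo_ge t
  positivity

theorem W1_comp {t g : ℝ} (h : |t - g| ≤ 1) : W1 t ≤ 18 * W1 g := by
  have h1 : Lo t ≤ 2 * Lo g := by
    unfold Lo
    have h2 : Real.log ((4 + |g|) ^ 2) = 2 * Real.log (4 + |g|) := by
      rw [Real.log_pow]
      norm_num
    rw [← h2]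
    have h3 := abs_nonneg g
    have h4 : |t| ≤ |g| + 1 := by
      have h5 := abs_sub_abs_le_abs_sub t g
      linarith
    apply Real.log_le_log (by have := abs_nonneg t; linarith)
    nlinarith
  have h2 : 1 / 4 + g ^ 2 ≤ 9 * (1 / 4 + t ^ 2) := by
    rw [abs_le] at h
    nlinarith [sq_nonneg (t + (t - g)), sq_nonneg (t - g), sq_nonneg t, mul_self_le_mul_self (abs_nonneg (t - g)) (abs_le.2 h), abs_mul_abs_self (t - g)]
  have hg : 0 < 1 / 4 + g ^ 2 := by positivity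
  have ht : 0 < 1 / 4 + t ^ 2 := by positivity
  have hL := Lo_ge g
  unfold W1
  rw [div_le_iff₀ ht, mul_div_assoc', div_mul_eq_mul_div, le_div_iff₀ hg]
  calc Lo t * (1 / 4 + g ^ 2) ≤ (2 * Lo g) * (9 * (1 / 4 + t ^ 2)) :=
        mul_le_mul h1 h2 hg.le (by positivity)
    _ = 18 * Lo g * (1 / 4 + t ^ 2) := by ring

theorem Lo_cont : Continuous Lo := by
  unfold Lo
  refine Continuous.log (by fun_prop) fun t => ?_
  have := abs_nonneg t
  linarith

theorem W2_cont : Continuous W2 := by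
  unfold W2
  refine (Lo_cont.pow 2).div (by fun_prop) fun t => ?_
  positivity

theorem int_W2 : Integrable W2 := by
  have h1 : Integrable fun x : ℝ => 8192 * (1 + ‖x‖) ^ (-(7 / 4 : ℝ)) := by
    refine (integrable_one_add_norm (μ := (volume : Measure ℝ)) (r := 7 / 4) ?_).const_mul 8192
    rw [Module.finrank_self]
    norm_num
  refine h1.mono' W2_cont.aestronglyMeasurable (Eventually.of_forall fun t => ?_)
  rw [Real.norm_of_nonneg (W2_pos t).le, Real.norm_eq_abs]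
  have ha := abs_nonneg t
  have h0 : 0 < 1 + |t| := by linarith
  have hL := Lo_ge t
  have h2 : Lo t ≤ 32 * (1 + |t|) ^ (1 / 8 : ℝ) := by
    unfold Lo
    have h3 := Real.log_le_rpow_div (show (0 : ℝ) ≤ 4 + |t| by linarith) (show (0 : ℝ) < 1 / 8 by norm_num)
    have h4 : (4 + |t|) ^ (1 / 8 : ℝ) ≤ 4 * (1 + |t|) ^ (1 / 8 : ℝ) := by
      calc (4 + |t|) ^ (1 / 8 : ℝ) ≤ (4 * (1 + |t|)) ^ (1 / 8 : ℝ) :=
            Real.rpow_le_rpow (by linarith) (by linarith) (by norm_num)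
        _ = 4 ^ (1 / 8 : ℝ) * (1 + |t|) ^ (1 / 8 : ℝ) := Real.mul_rpow (by norm_num) h0.le
        _ ≤ 4 * (1 + |t|) ^ (1 / 8 : ℝ) := by
            refine mul_le_mul_of_nonneg_right ?_ (by positivity)
            calc (4 : ℝ) ^ (1 / 8 : ℝ) ≤ (4 : ℝ) ^ (1 : ℝ) :=
                  Real.rpow_le_rpow_of_exponent_le (by norm_num) (by norm_num)
              _ = 4 := Real.rpow_one 4
    rw [div_eq_mul_inv] at h3
    linarith
  have h3 : Lo t ^ 2 ≤ 1024 * (1 + |t|) ^ (1 / 4 : ℝ) := by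
    calc Lo t ^ 2 ≤ (32 * (1 + |t|) ^ (1 / 8 : ℝ)) ^ 2 := pow_le_pow_left₀ (by linarith) h2 2
      _ = _ := by
          rw [mul_pow, ← Real.rpow_natCast ((1 + |t|) ^ (1 / 8 : ℝ)) 2, ← Real.rpow_mul h0.le]
          norm_num
  have h4 : (1 + |t|) ^ 2 ≤ 8 * (1 / 4 + t ^ 2) := by
    have h5 : t ^ 2 = |t| ^ 2 := (sq_abs t).symm
    rw [h5]
    nlinarith [sq_nonneg (1 - |t|)]
  unfold W2
  have hq : 0 < 1 / 4 + t ^ 2 := by positivity
  rw [div_le_iff₀ hq]
  calc Lo t ^ 2 ≤ 1024 * (1 + |t|) ^ (1 / 4 : ℝ) := h3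
    _ = 1024 * (1 + |t|) ^ (-(7 / 4) : ℝ) * (1 + |t|) ^ 2 := by
        rw [mul_assoc, ← Real.rpow_natCast (1 + |t|) 2, ← Real.rpow_add h0]
        norm_num
    _ ≤ 1024 * (1 + |t|) ^ (-(7 / 4) : ℝ) * (8 * (1 / 4 + t ^ 2)) :=
        mul_le_mul_of_nonneg_left h4 (by positivity)
    _ = _ := by ring

/-- the Cauchy kernel -/
theorem cau_int {δ : ℝ} (hδ : 0 < δ) (g : ℝ) : Integrable (fun t : ℝ => 1 / (δ ^ 2 + (t - g) ^ 2)) ∧
    ∫ t : ℝ, 1 / (δ ^ 2 + (t - g) ^ 2) = Real.pi / δ := by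
  have h1 : (fun t : ℝ => 1 / (δ ^ 2 + (t - g) ^ 2)) = fun t : ℝ => (1 / δ ^ 2) * (1 + ((t - g) / δ) ^ 2)⁻¹ := by
    funext t
    field_simp
  constructor
  · rw [h1]
    refine Integrable.const_mul ?_ _
    exact ((integrable_inv_one_add_sq.comp_div hδ.ne').comp_sub_right g)
  · rw [h1, integral_const_mul, integral_sub_right_eq_self (fun t : ℝ => (1 + (t / δ) ^ 2)⁻¹) g,
      Measure.integral_comp_div (fun t : ℝ => (1 + t ^ 2)⁻¹) δ, integral_univ_inv_one_add_sq, abs_of_pos hδ, smul_eq_mul]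
    field_simp

/-- the integral of the bound -/
theorem int_bound {ι : Type} [Countable ι] (f : ℝ → ℝ) (hf : ∀ t, 0 ≤ f t) (A : ℝ) (hA : 0 ≤ A) (D : ι → ℝ)
    (hD : ∀ i, 0 ≤ D i) (hs : Summable D) (g : ι → ℝ) {δ : ℝ} (hδ : 0 < δ)
    (h : ∀ t, ∃ T : Finset ι, f t ≤ A * W2 t + ∑ i ∈ T, D i * (1 / (δ ^ 2 + (t - g i) ^ 2))) :
    ∫ t, f t ≤ A * (∫ t, W2 t) + Real.pi / δ * ∑' i, D i := by
  have hpi := Real.pi_pos
  have hI : 0 ≤ ∫ t, W2 t := integral_nonneg fun t => (W2_pos t).le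
  have hTn : (0 : ℝ) ≤ ∑' i, D i := tsum_nonneg hD
  have h0 : 0 ≤ A * (∫ t, W2 t) + Real.pi / δ * ∑' i, D i := by
    positivity
  rw [← ENNReal.ofReal_le_ofReal_iff h0]
  have h1 : ENNReal.ofReal (∫ t, f t) ≤ ∫⁻ t, ENNReal.ofReal (f t) := by
    have h2 := enorm_integral_le_lintegral_enorm (μ := (volume : Measure ℝ)) f
    have h3 : ∀ x : ℝ, 0 ≤ x → ‖x‖ₑ = ENNReal.ofReal x := fun x hx => by
      rw [Real.enorm_eq_ofReal hx]
    rw [h3 _ (integral_nonneg hf)] at h2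
    refine h2.trans (le_of_eq ?_)
    refine lintegral_congr fun t => ?_
    rw [h3 _ (hf t)]
  refine h1.trans ?_
  have h2 : ∫⁻ t, ENNReal.ofReal (f t) ≤ ∫⁻ t, (ENNReal.ofReal (A * W2 t) +
      ∑' i, ENNReal.ofReal (D i * (1 / (δ ^ 2 + (t - g i) ^ 2)))) := by
    refine lintegral_mono fun t => ?_
    obtain ⟨T, hT⟩ := h t
    have hnn : ∀ i ∈ T, 0 ≤ D i * (1 / (δ ^ 2 + (t - g i) ^ 2)) := fun i _ => by
      have := hD i
      positivity
    refine (ENNReal.ofReal_le_ofReal hT).trans ?_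
    rw [ENNReal.ofReal_add (mul_nonneg hA (W2_pos t).le) (Finset.sum_nonneg hnn), ENNReal.ofReal_sum_of_nonneg hnn]
    exact add_le_add le_rfl (ENNReal.sum_le_tsum T)
  refine h2.trans (le_of_eq ?_)
  have hm : ∀ i, Measurable fun t : ℝ => ENNReal.ofReal (D i * (1 / (δ ^ 2 + (t - g i) ^ 2))) := fun i => by
    fun_prop
  rw [lintegral_add_left ((W2_cont.measurable.const_mul A).ennreal_ofReal), lintegral_tsum fun i => (hm i).aemeasurable]
  have h3 : ∫⁻ t, ENNReal.ofReal (A * W2 t) = ENNReal.ofReal (A * (∫ t, W2 t)) := by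
    rw [← integral_const_mul, ofReal_integral_eq_lintegral_ofReal (int_W2.const_mul A)
      (Eventually.of_forall fun t => mul_nonneg hA (W2_pos t).le)]
  have h4 : ∀ i, ∫⁻ t, ENNReal.ofReal (D i * (1 / (δ ^ 2 + (t - g i) ^ 2))) =
      ENNReal.ofReal (Real.pi / δ * D i) := fun i => by
    rw [← ofReal_integral_eq_lintegral_ofReal ((cau_int hδ (g i)).1.const_mul (D i))
      (Eventually.of_forall fun t => by
        have := hD i
        change 0 ≤ D i * (1 / (δ ^ 2 + (t - g i) ^ 2))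
        positivity), integral_const_mul, (cau_int hδ (g i)).2, mul_comm]
  simp only [h4]
  rw [h3, ← ENNReal.ofReal_tsum_of_nonneg (fun i => by have := hD i; positivity) (hs.mul_left _), tsum_mul_left,
    ← ENNReal.ofReal_add (mul_nonneg hA hI) (by positivity)]

end Pool.Agent.Q38.OE
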